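import Pool.Agent.Helper56.NB.PPN

/-!
# Definable categories given by pp pairs in any number of variables

The definitions used in the final statement, and the reduction to pairs in one variable.
-/

namespace Pool.Agent.Helper56.NB

open Pool.Agent.H35SD Pool.Agent.Helper56.SDD

universe u v

namespace Cat

section defs

variable {S : Type u} [Ring S] {n : ℕ} (X : Set (Σ m : ℕ, PPN S m × PPN S m))

/-- The module `M` belongs to the definable category given by the set `X` of pairs of pp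
conditions: `φ(M) ⊆ ψ(M)` for all pairs `(φ, ψ)` in `X`. -/
def Mem (M : Type v) [AddCommGroup M] [Module S M] : Prop :=
  ∀ σ ∈ X, ∀ x : Fin σ.1 → M, σ.2.1.Sat x → σ.2.2.Sat x

/-- `φ ≤ ψ` in the lattice `pp^n(X)`: `φ(M) ⊆ ψ(M)` for all modules `M` in the category. -/
def Le (φ ψ : PPN S n) : Prop :=
  ∀ (M : Type u) [AddCommGroup M] [Module S M], Mem X M → ∀ x : Fin n → M, φ.Sat x → ψ.Sat x

/-- `φ < ψ` in `pp^n(X)`. -/
def Lt (φ ψ : PPN S n) : Prop := Le X φ ψ ∧ ¬ Le X ψ φ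

/-- `θ ≤ θ₁ + θ₂` in `pp^n(X)`: `θ(M) ⊆ θ₁(M) + θ₂(M)` for all `M` in the category. -/
def LeSum (θ θ₁ θ₂ : PPN S n) : Prop :=
  ∀ (M : Type u) [AddCommGroup M] [Module S M], Mem X M → ∀ x : Fin n → M, θ.Sat x →
    ∃ p q : Fin n → M, θ₁.Sat p ∧ θ₂.Sat q ∧ p + q = x

/-- `θ₁ ∧ θ₂ ≤ θ` in `pp^n(X)`: `θ₁(M) ∩ θ₂(M) ⊆ θ(M)` for all `M` in the category. -/
def InfLe (θ₁ θ₂ θ : PPN S n) : Prop :=
  ∀ (M : Type u) [AddCommGroup M] [Module S M], Mem X M → ∀ x : Fin n → M, θ₁.Sat x →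
    θ₂.Sat x → θ.Sat x

/-- A wide subposet of `pp^n(X)` (with at least two comparable elements). -/
def IsWide (P : Set (PPN S n)) : Prop :=
  (∃ φ ∈ P, ∃ ψ ∈ P, Lt X ψ φ) ∧
  ∀ φ ∈ P, ∀ ψ ∈ P, Lt X ψ φ →
    ∃ θ₁ ∈ P, ∃ θ₂ ∈ P, ∃ θ₁₁ ∈ P, ∃ θ₁₂ ∈ P, ∃ θ₂₁ ∈ P, ∃ θ₂₂ ∈ P,
      (¬ Le X θ₁ θ₂ ∧ ¬ Le X θ₂ θ₁) ∧
      (Lt X ψ θ₁ ∧ Lt X θ₁ φ) ∧ (Lt X ψ θ₂ ∧ Lt X θ₂ φ) ∧
      (LeSum X θ₁₁ θ₁ θ₂ ∧ Lt X θ₁ θ₁₁ ∧ Lt X θ₁₂ θ₁ ∧ InfLe X θ₁ θ₂ θ₁₂) ∧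
      (LeSum X θ₂₁ θ₁ θ₂ ∧ Lt X θ₂ θ₂₁ ∧ Lt X θ₂₂ θ₂ ∧ InfLe X θ₁ θ₂ θ₂₂)

end defs

end Cat

/-! ### Reduction to pairs in one variable -/

section inf

variable {S : Type u} [Ring S] {n : ℕ} {M : Type v} [AddCommGroup M] [Module S M]

/-- The conjunction. -/
def PPN.inf (φ ψ : PPN S n) : PPN S n where
  m := φ.m + ψ.m
  e := φ.e + ψ.e
  r := Fin.append φ.r ψ.r
  s := Fin.append (fun j => Fin.append (φ.s j) (fun _ => 0))
    (fun j => Fin.append (fun _ => 0) (ψ.s j))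

theorem PPN.sat_inf (φ ψ : PPN S n) (x : Fin n → M) :
    (φ.inf ψ).Sat x ↔ φ.Sat x ∧ ψ.Sat x := by
  have hl : ∀ (y : Fin (φ.m + ψ.m) → M) (j : Fin φ.e),
      ∑ i, (φ.inf ψ).r (Fin.castAdd ψ.e j) i • x i +
        ∑ l, (φ.inf ψ).s (Fin.castAdd ψ.e j) l • y l =
      ∑ i, φ.r j i • x i + ∑ l, φ.s j l • y (Fin.castAdd ψ.m l) := by
    intro y j
    change ∑ i, (Fin.append φ.r ψ.r : Fin (φ.e + ψ.e) → Fin n → S) (Fin.castAdd ψ.e j) i • x i +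
      ∑ l : Fin (φ.m + ψ.m), (Fin.append (fun j => Fin.append (φ.s j) (fun _ => 0))
        (fun j => Fin.append (fun _ => 0) (ψ.s j)) : Fin (φ.e + ψ.e) → Fin (φ.m + ψ.m) → S)
          (Fin.castAdd ψ.e j) l • y l = _
    rw [Fin.append_left, Fin.append_left, Fin.sum_univ_add]
    simp
  have hr : ∀ (y : Fin (φ.m + ψ.m) → M) (j : Fin ψ.e),
      ∑ i, (φ.inf ψ).r (Fin.natAdd φ.e j) i • x i +
        ∑ l, (φ.inf ψ).s (Fin.natAdd φ.e j) l • y l =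
      ∑ i, ψ.r j i • x i + ∑ l, ψ.s j l • y (Fin.natAdd φ.m l) := by
    intro y j
    change ∑ i, (Fin.append φ.r ψ.r : Fin (φ.e + ψ.e) → Fin n → S) (Fin.natAdd φ.e j) i • x i +
      ∑ l : Fin (φ.m + ψ.m), (Fin.append (fun j => Fin.append (φ.s j) (fun _ => 0))
        (fun j => Fin.append (fun _ => 0) (ψ.s j)) : Fin (φ.e + ψ.e) → Fin (φ.m + ψ.m) → S)
          (Fin.natAdd φ.e j) l • y l = _
    rw [Fin.append_right, Fin.append_right, Fin.sum_univ_add]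
    simp
  constructor
  · rintro ⟨y, hy⟩
    exact ⟨⟨fun l => y (Fin.castAdd ψ.m l), fun j => (hl y j).symm.trans (hy _)⟩,
      ⟨fun l => y (Fin.natAdd φ.m l), fun j => (hr y j).symm.trans (hy _)⟩⟩
  · rintro ⟨⟨y, hy⟩, ⟨z, hz⟩⟩
    refine ⟨Fin.append y z, fun j => ?_⟩
    change Fin (φ.e + ψ.e) at j
    refine Fin.addCases (fun j => ?_) (fun j => ?_) j
    · refine (hl (Fin.append y z) j).trans ?_
      simp only [Fin.append_left]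
      exact hy j
    · refine (hr (Fin.append y z) j).trans ?_
      simp only [Fin.append_right]
      exact hz j

end inf

/-- A pair of pp conditions in `n` variables is equivalent to finitely many pairs in one
variable. -/
theorem exists_pairs {S : Type u} [Ring S] {n : ℕ} (φ ψ : PPN S n) :
    ∃ Y : Set (PP S × PP S), Y.Countable ∧ ∀ (M : Type u) [AddCommGroup M] [Module S M],
      InX Y M ↔ ∀ x : Fin n → M, φ.Sat x → ψ.Sat x := by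
  induction n with
  | zero =>
    refine ⟨∅, Set.countable_empty, fun M _ _ => ⟨fun _ x _ => ⟨0, fun j => by simp⟩,
      fun _ σ hσ => absurd hσ (Set.notMem_empty σ)⟩⟩
  | succ n ih =>
    obtain ⟨Y, hY, h⟩ := ih φ.ex (φ.inf ψ).ex
    refine ⟨insert (φ.rs, (φ.inf ψ).rs) Y, hY.insert _, fun M _ _ => ⟨fun hM v hv => ?_, fun hM => ?_⟩⟩
    · have h1 : InX Y M := fun σ hσ => hM σ (Set.mem_insert_of_mem _ hσ)
      have h2 := hM _ (Set.mem_insert _ Y)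
      have hv' : v = Fin.cons (v 0) (Fin.tail v) := (Fin.cons_self_tail v).symm
      rw [hv'] at hv ⊢
      obtain ⟨z, hz⟩ := (PPN.sat_ex _ _).1 (((h M).1 h1) _ ((PPN.sat_ex _ _).2 ⟨v 0, hv⟩))
      have h3 := PPN.sat_sub ((PPN.sat_inf _ _ _).1 hz).1 hv
      rw [cons_sub, ← PPN.sat_rs] at h3
      have h4 := h2 _ h3
      change (φ.inf ψ).rs.Sat _ at h4
      rw [PPN.sat_rs] at h4
      have h5 := PPN.sat_sub hz h4
      rw [cons_sub'] at h5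
      exact ((PPN.sat_inf _ _ _).1 h5).2
    · rintro σ (rfl | hσ)
      · intro x hx
        change (φ.inf ψ).rs.Sat x
        change φ.rs.Sat x at hx
        rw [PPN.sat_rs] at hx ⊢
        exact (PPN.sat_inf _ _ _).2 ⟨hx, hM _ hx⟩
      · refine (h M).2 (fun x hx => ?_) σ hσ
        rw [PPN.sat_ex] at hx ⊢
        obtain ⟨z, hz⟩ := hx
        exact ⟨z, (PPN.sat_inf _ _ _).2 ⟨hz, hM _ hz⟩⟩

theorem exists_one_var {S : Type u} [Ring S] (X : Set (Σ m : ℕ, PPN S m × PPN S m))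
    (hX : X.Countable) : ∃ Y : Set (PP S × PP S), Y.Countable ∧
      ∀ (M : Type u) [AddCommGroup M] [Module S M], InX Y M ↔ Cat.Mem X M := by
  choose Y hY h using fun σ : (Σ m : ℕ, PPN S m × PPN S m) => exists_pairs σ.2.1 σ.2.2
  refine ⟨⋃ σ ∈ X, Y σ, hX.biUnion fun σ _ => hY σ, fun M _ _ => ⟨fun hM σ hσ => ?_, ?_⟩⟩
  · exact (h σ M).1 fun τ hτ => hM τ (Set.mem_biUnion hσ hτ)
  · intro hM τ hτ
    obtain ⟨σ, hσ, hτ'⟩ := Set.mem_iUnion₂.1 hτ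
    exact (h σ M).2 (hM σ hσ) τ hτ'

theorem isWideN_of {S : Type u} [Ring S] {n : ℕ} {X : Set (Σ m : ℕ, PPN S m × PPN S m)}
    {Y : Set (PP S × PP S)}
    (h : ∀ (M : Type u) [AddCommGroup M] [Module S M], InX Y M ↔ Cat.Mem X M)
    {P : Set (PPN S n)} (hP : Cat.IsWide X P) : IsWideN Y P := by
  have h1 : ∀ φ ψ : PPN S n, LeN Y φ ψ = Cat.Le X φ ψ := fun φ ψ => by
    unfold LeN Cat.Le
    simp only [h]
  have h2 : ∀ φ ψ : PPN S n, LtN Y φ ψ = Cat.Lt X φ ψ := fun φ ψ => by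
    unfold LtN Cat.Lt
    rw [h1, h1]
  have h3 : ∀ φ ψ χ : PPN S n, LeSumN Y φ ψ χ = Cat.LeSum X φ ψ χ := fun φ ψ χ => by
    unfold LeSumN Cat.LeSum
    simp only [h]
  have h4 : ∀ φ ψ χ : PPN S n, InfLeN Y φ ψ χ = Cat.InfLe X φ ψ χ := fun φ ψ χ => by
    unfold InfLeN Cat.InfLe
    simp only [h]
  unfold IsWideN
  unfold Cat.IsWide at hP
  simp only [h1, h2, h3, h4]
  exact hP

end Pool.Agent.Helper56.NB
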