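import Pool.Agent.Helper56.NB.Defs

open scoped TensorProduct

namespace Pool.Agent.Helper56.NB

open Pool.Agent.H35SD Pool.Agent.Helper56.SDD

universe u v

section BCM

section key

variable {C₀ C S₀ M : Type u} [CommRing C₀] [CommRing C] [Algebra C₀ C] [Ring S₀]
  [Algebra C₀ S₀] [AddCommGroup M] [Module C₀ M] [Module S₀ M] [IsScalarTower C₀ S₀ M]

theorem act_one_tmul (s : S₀) (z : C ⊗[C₀] M) :
    act ((1 : C) ⊗ₜ[C₀] s) z = (Algebra.lsmul C₀ C₀ M s : M →ₗ[C₀] M).lTensor C z := by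
  induction z using TensorProduct.induction_on with
  | zero => rw [map_zero, map_zero]
  | tmul a q =>
    rw [act_tmul, one_mul, LinearMap.lTensor_tmul]
    rfl
  | add x y hx hy => rw [map_add, map_add, hx, hy]

/-- the matrix of a pp condition -/
def gmat (χ : PP S₀) (j : Fin (χ.m + 1)) (i : Fin χ.e) : M →ₗ[C₀] M :=
  Algebra.lsmul C₀ C₀ M ((Fin.cons (χ.r i) (χ.s i) : Fin (χ.m + 1) → S₀) j)

theorem gmat_sum (χ : PP S₀) (z : Fin (χ.m + 1) → M) (i : Fin χ.e) :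
    ∑ j, gmat (C₀ := C₀) χ j i (z j) = χ.r i • z 0 + ∑ l, χ.s i l • z l.succ := by
  rw [Fin.sum_univ_succ]
  simp [gmat]

theorem gmat_tsum (χ : PP S₀) (z : Fin (χ.m + 1) → C ⊗[C₀] M) (i : Fin χ.e) :
    ∑ j, (gmat (C₀ := C₀) (M := M) χ j i).lTensor C (z j) =
      act ((1 : C) ⊗ₜ[C₀] χ.r i) (z 0) + ∑ l, act ((1 : C) ⊗ₜ[C₀] χ.s i l) (z l.succ) := by
  rw [Fin.sum_univ_succ]
  simp only [gmat, Fin.cons_zero, Fin.cons_succ, act_one_tmul]

theorem sat_bc_flat [Module.Flat C₀ C] (χ : PP S₀) (n : C ⊗[C₀] M) (y : Fin χ.m → C ⊗[C₀] M)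
    (h : ∀ i, act ((1 : C) ⊗ₜ[C₀] χ.r i) n + ∑ l, act ((1 : C) ⊗ₜ[C₀] χ.s i l) (y l) = 0) :
    ∃ (k : ℕ) (c : Fin k → C) (m : Fin k → M), (∀ i, χ.Sat (m i)) ∧
      n = ∑ i, c i ⊗ₜ[C₀] m i := by
  obtain ⟨k, c, z', h1, h2⟩ := flat_tuples (C := C) (gmat (C₀ := C₀) (M := M) χ)
    (Fin.cons n y) (fun i => by
      rw [gmat_tsum]
      simpa using h i)
  refine ⟨k, c, fun i => z' i 0, fun i => ⟨fun l => z' i l.succ, fun j => ?_⟩, ?_⟩
  · have := h1 i j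
    rwa [gmat_sum] at this
  · have := h2 0
    rwa [Fin.cons_zero] at this

theorem sat_bc_ff [Module.FaithfullyFlat C₀ C] (χ : PP S₀) (m : M) (y : Fin χ.m → C ⊗[C₀] M)
    (h : ∀ i, act ((1 : C) ⊗ₜ[C₀] χ.r i) ((1 : C) ⊗ₜ[C₀] m) +
      ∑ l, act ((1 : C) ⊗ₜ[C₀] χ.s i l) (y l) = 0) : χ.Sat m := by
  obtain ⟨z, hz⟩ := ff_tuples (C := C)
    (fun (l : Fin χ.m) (i : Fin χ.e) => (Algebra.lsmul C₀ C₀ M (χ.s i l) : M →ₗ[C₀] M)) y
    (fun i => -(χ.r i • m)) (fun i => by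
      simp only [← act_one_tmul]
      rw [TensorProduct.tmul_neg, eq_neg_of_add_eq_zero_right (h i), act_tmul, one_mul])
  refine ⟨z, fun i => ?_⟩
  have := hz i
  simp only [Algebra.lsmul_coe] at this
  rw [this, add_neg_cancel]

theorem sat_bc_tmul (χ : PP S₀) (c : C) (m : M) (h : χ.Sat m) :
    ∃ y : Fin χ.m → C ⊗[C₀] M, ∀ i, act ((1 : C) ⊗ₜ[C₀] χ.r i) (c ⊗ₜ[C₀] m) +
      ∑ l, act ((1 : C) ⊗ₜ[C₀] χ.s i l) (y l) = 0 := by
  obtain ⟨y, hy⟩ := h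
  refine ⟨fun l => c ⊗ₜ[C₀] y l, fun i => ?_⟩
  simp only [act_tmul, one_mul]
  rw [← TensorProduct.tmul_sum, ← TensorProduct.tmul_add, hy, TensorProduct.tmul_zero]

end key

variable {C₀ C S₀ S : Type u} [CommRing C₀] [CommRing C] [Algebra C₀ C]
    [Module.FaithfullyFlat C₀ C] [Ring S₀] [Algebra C₀ S₀] [Ring S] (f : S₀ →+* S)
    (e : C ⊗[C₀] S₀ ≃+* S) (he : ∀ s, e (1 ⊗ₜ s) = f s)

theorem inX_compHom (X : Set (PP S₀ × PP S₀)) {M : Type u} [AddCommGroup M] [Module S M]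
    (hM : InX (mapX f X) M) :
    letI : Module S₀ M := Module.compHom M f
    InX X M := by
  let _ : Module S₀ M := Module.compHom M f
  intro σ hσ x hx
  exact hM (σ.1.map f, σ.2.map f) ⟨σ, hσ, rfl⟩ x hx

include he in
/-- the base change of a module in the category -/
theorem exists_bc (X : Set (PP S₀ × PP S₀)) {M : Type u} [AddCommGroup M] [Module S₀ M]
    (hM : InX X M) : ∃ (N : Type u) (_ : AddCommGroup N) (_ : Module S N) (ι : M → N),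
      InX (mapX f X) N ∧ ∀ (χ : PP S₀) (m : M), (χ.map f).Sat (ι m) ↔ χ.Sat m := by
  let _ : Module C₀ M := cMod C₀ (S₀ := S₀) M
  have _ : IsScalarTower C₀ S₀ M := cMod_tower C₀ (S₀ := S₀) M
  let _ : Module (C ⊗[C₀] S₀) (C ⊗[C₀] M) := bcMod
  let _ : Module S (C ⊗[C₀] M) := Module.compHom _ (e.symm : S →+* C ⊗[C₀] S₀)
  have hsm : ∀ (s : S₀) (n : C ⊗[C₀] M), f s • n = act ((1 : C) ⊗ₜ[C₀] s) n := by
    intro s n
    change act (e.symm (f s)) n = _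
    rw [← he, RingEquiv.symm_apply_apply]
  have hsat : ∀ (χ : PP S₀) (n : C ⊗[C₀] M), (χ.map f).Sat n ↔
      ∃ y : Fin χ.m → C ⊗[C₀] M, ∀ i, act ((1 : C) ⊗ₜ[C₀] χ.r i) n +
        ∑ l, act ((1 : C) ⊗ₜ[C₀] χ.s i l) (y l) = 0 := by
    intro χ n
    constructor
    · rintro ⟨y, hy⟩
      refine ⟨y, fun i => ?_⟩
      have h1 : f (χ.r i) • n + ∑ l, f (χ.s i l) • (y : Fin χ.m → C ⊗[C₀] M) l = 0 := hy i
      simpa only [hsm] using h1
    · rintro ⟨y, hy⟩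
      refine ⟨y, fun i => ?_⟩
      change f (χ.r i) • n + ∑ l, f (χ.s i l) • (y : Fin χ.m → C ⊗[C₀] M) l = 0
      simpa only [hsm] using hy i
  refine ⟨C ⊗[C₀] M, inferInstance, inferInstance, fun m => (1 : C) ⊗ₜ[C₀] m, ?_, ?_⟩
  · rintro _ ⟨σ, hσ, rfl⟩ n hn
    obtain ⟨y, hy⟩ := (hsat _ _).1 hn
    obtain ⟨k, c, m, h1, rfl⟩ := sat_bc_flat σ.1 n y hy
    have h2 : ∀ s : Finset (Fin k), (σ.2.map f).Sat (∑ i ∈ s, c i ⊗ₜ[C₀] m i) := by
      classical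
      intro s
      induction s using Finset.induction_on with
      | empty => exact sat_zero _
      | insert a s ha ih =>
        rw [Finset.sum_insert ha]
        exact sat_add ((hsat _ _).2 (sat_bc_tmul σ.2 (c a) (m a) (hM σ hσ _ (h1 a)))) ih
    exact h2 Finset.univ
  · intro χ m
    constructor
    · intro h
      obtain ⟨y, hy⟩ := (hsat _ _).1 h
      exact sat_bc_ff χ m y hy
    · intro h
      exact (hsat _ _).2 (sat_bc_tmul χ 1 m h)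

include he in
theorem le_mapX_iff (X : Set (PP S₀ × PP S₀)) (φ ψ : PP S₀) :
    Le (mapX f X) (φ.map f) (ψ.map f) ↔ Le X φ ψ := by
  constructor
  · intro h M _ _ hM x hx
    obtain ⟨N, _, _, ι, h1, h2⟩ := exists_bc f e he X hM
    exact (h2 ψ x).1 (h N h1 _ ((h2 φ x).2 hx))
  · intro h M _ _ hM x hx
    let _ : Module S₀ M := Module.compHom M f
    exact h M (inX_compHom f X hM) x hx

include he in
theorem infLe_mapX_iff (X : Set (PP S₀ × PP S₀)) (φ ψ χ : PP S₀) :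
    InfLe (mapX f X) (φ.map f) (ψ.map f) (χ.map f) ↔ InfLe X φ ψ χ := by
  constructor
  · intro h M _ _ hM x hx hx'
    obtain ⟨N, _, _, ι, h1, h2⟩ := exists_bc f e he X hM
    exact (h2 χ x).1 (h N h1 _ ((h2 φ x).2 hx) ((h2 ψ x).2 hx'))
  · intro h M _ _ hM x hx hx'
    let _ : Module S₀ M := Module.compHom M f
    exact h M (inX_compHom f X hM) x hx hx'

end BCM

end Pool.Agent.Helper56.NB
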