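import Pool.Agent.Helper56.SDD.Main

/-!
# Algebras over a commutative Noetherian ring: definitions and flat base change of tuples
-/

open scoped TensorProduct

namespace Pool.Agent.Helper56.NB

open Pool.Agent.H35SD Pool.Agent.Helper56.SDD

universe u v

/-- A subring closed under the solution of polynomial systems modulo finitely generated ideals
and under generators of the solutions of a linear equation. -/
structure GoodSub {C : Type u} [CommRing C] (C₀ : Subring C) : Prop where
  sol : ∀ (n : ℕ) (T G : Finset (MvPolynomial (Fin n) C₀)) (B : Finset C₀) (x : Fin n → C),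
    (∀ t ∈ T, MvPolynomial.aeval x t ∈ (Ideal.span (B : Set C₀)).map (algebraMap C₀ C)) →
    (∀ g ∈ G, MvPolynomial.aeval x g ∉ (Ideal.span (B : Set C₀)).map (algebraMap C₀ C)) →
    ∃ z : Fin n → C₀,
      (∀ t ∈ T, algebraMap C₀ C (MvPolynomial.aeval z t) ∈
        (Ideal.span (B : Set C₀)).map (algebraMap C₀ C)) ∧
      ∀ g ∈ G, algebraMap C₀ C (MvPolynomial.aeval z g) ∉
        (Ideal.span (B : Set C₀)).map (algebraMap C₀ C)
  ker : ∀ (n : ℕ) (a : Fin n → C₀) (x : Fin n → C), ∑ j, (a j : C) * x j = 0 →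
    ∃ (l : ℕ) (y : Fin l → Fin n → C₀) (c : Fin l → C), (∀ k, ∑ j, a j * y k j = 0) ∧
      ∀ j, x j = ∑ k, c k * (y k j : C)

/-! ### Flat base change of solutions of linear systems -/

section tuples

variable {C₀ C A B : Type*} [CommRing C₀] [CommRing C] [Algebra C₀ C]
  [AddCommGroup A] [Module C₀ A] [AddCommGroup B] [Module C₀ B]

/-- the tuple in `C ⊗ A^e` given by a tuple in `C ⊗ A` -/
noncomputable def tup {e : ℕ} (z : Fin e → C ⊗[C₀] A) : C ⊗[C₀] (Fin e → A) :=
  ∑ j, (LinearMap.single C₀ (fun _ : Fin e => A) j).lTensor C (z j)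

/-- the linear map of a matrix of linear maps -/
def mat {e m : ℕ} (g : Fin e → Fin m → A →ₗ[C₀] B) : (Fin e → A) →ₗ[C₀] (Fin m → B) :=
  LinearMap.pi fun l => ∑ j, (g j l).comp (LinearMap.proj j)

theorem mat_apply {e m : ℕ} (g : Fin e → Fin m → A →ₗ[C₀] B) (z : Fin e → A) (l : Fin m) :
    mat g z l = ∑ j, g j l (z j) := by
  simp [mat]

theorem proj_tup {e : ℕ} (z : Fin e → C ⊗[C₀] A) (j : Fin e) :
    (LinearMap.proj j : (Fin e → A) →ₗ[C₀] A).lTensor C (tup z) = z j := by
  unfold tup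
  rw [map_sum, Finset.sum_eq_single j]
  · rw [← LinearMap.comp_apply, ← LinearMap.lTensor_comp]
    have : (LinearMap.proj j : (Fin e → A) →ₗ[C₀] A).comp
        (LinearMap.single C₀ (fun _ : Fin e => A) j) = LinearMap.id := by
      ext x; simp
    rw [this, LinearMap.lTensor_id]
    rfl
  · intro i _ hi
    rw [← LinearMap.comp_apply, ← LinearMap.lTensor_comp]
    have : (LinearMap.proj j : (Fin e → A) →ₗ[C₀] A).comp
        (LinearMap.single C₀ (fun _ : Fin e => A) i) = 0 := by
      ext x; simp [Pi.single_eq_of_ne hi.symm]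
    rw [this, LinearMap.lTensor_zero]
    rfl
  · intro h; exact absurd (Finset.mem_univ _) h

theorem mat_tup {e m : ℕ} (g : Fin e → Fin m → A →ₗ[C₀] B) (z : Fin e → C ⊗[C₀] A) :
    (mat g).lTensor C (tup z) = tup fun l => ∑ j, (g j l).lTensor C (z j) := by
  have h1 : ∀ j, (mat g).comp (LinearMap.single C₀ (fun _ : Fin e => A) j) =
      ∑ l, (LinearMap.single C₀ (fun _ : Fin m => B) l).comp (g j l) := by
    intro j
    apply LinearMap.ext
    intro x
    ext l
    rw [LinearMap.comp_apply, mat_apply, Finset.sum_eq_single j]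
    · simp [LinearMap.sum_apply, Finset.sum_apply, Pi.single_apply]
    · intro i _ hi
      simp [Pi.single_eq_of_ne hi]
    · intro h; exact absurd (Finset.mem_univ _) h
  unfold tup
  rw [map_sum]
  have h2 : ∀ j, (mat g).lTensor C
      ((LinearMap.single C₀ (fun _ : Fin e => A) j).lTensor C (z j)) =
      ∑ l, (LinearMap.single C₀ (fun _ : Fin m => B) l).lTensor C ((g j l).lTensor C (z j)) := by
    intro j
    rw [← LinearMap.comp_apply, ← LinearMap.lTensor_comp, h1]
    simp only [← LinearMap.comp_apply, ← LinearMap.lTensor_comp]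
    rw [← LinearMap.coe_lTensorHom, map_sum, LinearMap.sum_apply]
  rw [Finset.sum_congr rfl fun j _ => h2 j, Finset.sum_comm]
  refine Finset.sum_congr rfl fun l _ => ?_
  rw [map_sum]

theorem tup_zero {e : ℕ} : tup (C₀ := C₀) (C := C) (A := A) (fun _ : Fin e => 0) = 0 := by
  simp [tup]

theorem tup_one {m : ℕ} (b : Fin m → B) :
    tup (C₀ := C₀) (C := C) (fun l => (1 : C) ⊗ₜ[C₀] b l) = 1 ⊗ₜ b := by
  unfold tup
  simp only [LinearMap.lTensor_tmul]
  rw [← TensorProduct.tmul_sum]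
  congr 1
  ext l
  simp [Finset.sum_apply, Pi.single_apply]

theorem exists_sum_tmul (x : C ⊗[C₀] A) : ∃ (n : ℕ) (c : Fin n → C) (a : Fin n → A),
    x = ∑ i, c i ⊗ₜ[C₀] a i := by
  induction x using TensorProduct.induction_on with
  | zero => exact ⟨0, Fin.elim0, Fin.elim0, by simp⟩
  | tmul a q => exact ⟨1, fun _ => a, fun _ => q, by simp⟩
  | add x y hx hy =>
    obtain ⟨n, a, u, rfl⟩ := hx
    obtain ⟨m, b, w, rfl⟩ := hy
    exact ⟨n + m, Fin.append a b, Fin.append u w, by simp [Fin.sum_univ_add]⟩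

/-- Flat base change of the solutions of a homogeneous linear system. -/
theorem flat_tuples [Module.Flat C₀ C] {e m : ℕ} (g : Fin e → Fin m → A →ₗ[C₀] B)
    (z : Fin e → C ⊗[C₀] A) (hz : ∀ l, ∑ j, (g j l).lTensor C (z j) = 0) :
    ∃ (n : ℕ) (c : Fin n → C) (z' : Fin n → Fin e → A), (∀ i l, ∑ j, g j l (z' i j) = 0) ∧
      ∀ j, z j = ∑ i, c i ⊗ₜ[C₀] z' i j := by
  have hex : Function.Exact (LinearMap.ker (mat g)).subtype (mat g) := by
    intro x
    constructor
    · intro h
      exact ⟨⟨x, h⟩, rfl⟩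
    · rintro ⟨y, rfl⟩
      exact y.2
  have h1 := Module.Flat.lTensor_exact C hex
  have h2 : (mat g).lTensor C (tup z) = 0 := by
    rw [mat_tup]
    simp only [hz]
    exact tup_zero
  obtain ⟨y, hy⟩ := (h1 (tup z)).1 h2
  obtain ⟨n, c, a, rfl⟩ := exists_sum_tmul y
  refine ⟨n, c, fun i => (a i : Fin e → A), fun i l => ?_, fun j => ?_⟩
  · rw [← mat_apply]
    have h3 := (a i).2
    rw [LinearMap.mem_ker] at h3
    rw [h3]
    rfl
  · rw [← proj_tup z j, ← hy, map_sum, map_sum]
    rfl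

/-- Faithfully flat descent of the solvability of a linear system. -/
theorem ff_tuples [Module.FaithfullyFlat C₀ C] {e m : ℕ} (g : Fin e → Fin m → A →ₗ[C₀] B)
    (z : Fin e → C ⊗[C₀] A) (b : Fin m → B)
    (hz : ∀ l, ∑ j, (g j l).lTensor C (z j) = 1 ⊗ₜ[C₀] b l) :
    ∃ z' : Fin e → A, ∀ l, ∑ j, g j l (z' j) = b l := by
  have h1 : (mat g).lTensor C (tup z) = (1 : C) ⊗ₜ[C₀] b := by
    rw [mat_tup]
    simp only [hz]
    exact tup_one b
  have h2 : (1 : C) ⊗ₜ[C₀] (Submodule.Quotient.mk b : (Fin m → B) ⧸ LinearMap.range (mat g)) =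
      0 := by
    have h3 : ((LinearMap.range (mat g)).mkQ.lTensor C) ((mat g).lTensor C (tup z)) = 0 := by
      rw [← LinearMap.comp_apply, ← LinearMap.lTensor_comp]
      have : (LinearMap.range (mat g)).mkQ.comp (mat g) = 0 := by
        apply LinearMap.ext
        intro x
        rw [LinearMap.comp_apply, Submodule.mkQ_apply, LinearMap.zero_apply,
          Submodule.Quotient.mk_eq_zero]
        exact ⟨x, rfl⟩
      rw [this, LinearMap.lTensor_zero]
      rfl
    rw [h1] at h3
    exact h3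
  have h4 := Module.FaithfullyFlat.tensorProduct_mk_injective (A := C₀) (B := C)
    ((Fin m → B) ⧸ LinearMap.range (mat g))
  have h5 : (Submodule.Quotient.mk b : (Fin m → B) ⧸ LinearMap.range (mat g)) = 0 := by
    apply h4
    rw [map_zero]
    exact h2
  rw [Submodule.Quotient.mk_eq_zero] at h5
  obtain ⟨z', hz'⟩ := h5
  refine ⟨z', fun l => ?_⟩
  rw [← mat_apply, hz']

end tuples

/-! ### Base change of modules over an algebra -/

section act

variable {C₀ C S₀ M : Type*} [CommRing C₀] [CommRing C] [Algebra C₀ C] [Ring S₀] [Algebra C₀ S₀]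
  [AddCommGroup M] [Module C₀ M] [Module S₀ M] [IsScalarTower C₀ S₀ M]

/-- The action of `C ⊗ S₀` on `C ⊗ M`. -/
noncomputable def act : C ⊗[C₀] S₀ →ₐ[C₀] Module.End C₀ (C ⊗[C₀] M) :=
  Algebra.TensorProduct.lift
    ((Module.End.rTensorAlgHom C₀ C M).comp (Algebra.lsmul C₀ C₀ C))
    ((Module.End.lTensorAlgHom C₀ M C).comp (Algebra.lsmul C₀ C₀ M))
    (by
      intro a l
      apply TensorProduct.ext'
      intro b q
      rfl)

theorem act_tmul (c : C) (l : S₀) (a : C) (q : M) :
    act (c ⊗ₜ[C₀] l) (a ⊗ₜ[C₀] q) = (c * a) ⊗ₜ[C₀] (l • q) := rfl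

/-- The module `C ⊗ M` over `C ⊗ S₀`. -/
@[reducible]
noncomputable def bcMod : Module (C ⊗[C₀] S₀) (C ⊗[C₀] M) :=
  Module.compHom _ (act (C₀ := C₀) (C := C) (S₀ := S₀) (M := M)).toRingHom

end act

/-- the module structure over a commutative ring with central image -/
@[reducible]
def cMod (C₀ : Type*) {S₀ : Type*} (M : Type*) [CommRing C₀] [Ring S₀] [Algebra C₀ S₀]
    [AddCommGroup M] [Module S₀ M] : Module C₀ M :=
  Module.compHom M (algebraMap C₀ S₀)

theorem cMod_tower (C₀ : Type*) {S₀ : Type*} (M : Type*) [CommRing C₀] [Ring S₀]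
    [Algebra C₀ S₀] [AddCommGroup M] [Module S₀ M] :
    letI := cMod C₀ (S₀ := S₀) M
    IsScalarTower C₀ S₀ M := by
  let _ := cMod C₀ (S₀ := S₀) M
  refine ⟨fun c l q => ?_⟩
  change (c • l) • q = (algebraMap C₀ S₀ c) • (l • q)
  rw [Algebra.smul_def, mul_smul]

/-! ### The module `CC R` over a commutative ring -/

section
variable (k : Type u) [CommRing k] (R : Type u) [Ring R] [Algebra k R]

noncomputable instance instModuleCC : Module k (CC R) :=
  inferInstanceAs (Module k (DirectSum (Idx R) (fun j => Md R j)))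

instance instTowerCC : IsScalarTower k R (CC R) :=
  inferInstanceAs (IsScalarTower k R (DirectSum (Idx R) (fun j => Md R j)))

instance instCommCC : SMulCommClass R k (CC R) := IsScalarTower.to_smulCommClass'

noncomputable instance instAlgEndCC : Algebra k (Module.End R (CC R)) :=
  Module.End.instAlgebra k R (CC R)

end

/-- The map `th` as a linear map. -/
noncomputable def thL (k : Type u) (S : Type u) [CommRing k] [Ring S] [Algebra k S] :
    S →ₗ[k] Module.End Sᵐᵒᵖ (CC Sᵐᵒᵖ) where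
  toFun := th S
  map_add' := (CC_corner S).add
  map_smul' := by
    intro c s
    have h3 : ∀ f : Fin 1 → Sᵐᵒᵖ,
        rmul S (c • s) f = algebraMap k Sᵐᵒᵖ c • rmul S s f := by
      intro f
      ext i
      change f i * MulOpposite.op (c • s) = algebraMap k Sᵐᵒᵖ c * (f i * MulOpposite.op s)
      rw [← Algebra.smul_def, MulOpposite.op_smul, mul_smul_comm]
    have h2 : ∀ y : Md Sᵐᵒᵖ (j0 Sᵐᵒᵖ),
        rmulQ S (c • s) y = algebraMap k Sᵐᵒᵖ c • rmulQ S s y := by
      intro y
      obtain ⟨f, rfl⟩ := Submodule.mkQ_surjective _ y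
      exact congrArg (Submodule.mkQ (⊥ : Submodule Sᵐᵒᵖ (Fin 1 → Sᵐᵒᵖ))) (h3 f)
    apply LinearMap.ext
    intro x
    change inc Sᵐᵒᵖ (j0 Sᵐᵒᵖ) (rmulQ S (c • s) (cmp Sᵐᵒᵖ (j0 Sᵐᵒᵖ) x)) =
      c • inc Sᵐᵒᵖ (j0 Sᵐᵒᵖ) (rmulQ S s (cmp Sᵐᵒᵖ (j0 Sᵐᵒᵖ) x))
    rw [h2, map_smul, algebraMap_smul]

theorem thL_apply (k : Type u) {S : Type u} [CommRing k] [Ring S] [Algebra k S] (s : S) :
    thL k S s = th S s := rfl

/-- The image of a set of pairs of pp conditions under a change of coefficients. -/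
def mapX {S : Type u} {S' : Type u} (f : S → S') (X : Set (PP S × PP S)) :
    Set (PP S' × PP S') :=
  (fun σ : PP S × PP S => (σ.1.map f, σ.2.map f)) '' X

end Pool.Agent.Helper56.NB
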