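import Pool.Agent.Helper56.SDD.Main

/-!
# pp conditions in several variables

Definitions, and the reduction of a wide poset of pp conditions in `n` variables to a good map into
the lattice of pp conditions in one variable.
-/

namespace Pool.Agent.Helper56.NB

open Pool.Agent.H35SD Pool.Agent.Helper56.SDD

universe u v

/-- A pp condition in `n` free variables over the ring `S`, for left modules:
`∃ y_1 .. y_m, for all j = 1 .. e: ∑_i r_{ji} x_i + ∑_l s_{jl} y_l = 0`. -/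
structure PPN (S : Type u) (n : ℕ) where
  m : ℕ
  e : ℕ
  r : Fin e → Fin n → S
  s : Fin e → Fin m → S

/-- `φ.Sat x`: the `n`-tuple `x` of elements of a module satisfies the pp condition `φ`. -/
def PPN.Sat {S : Type u} {n : ℕ} [Ring S] (φ : PPN S n) {M : Type v} [AddCommGroup M]
    [Module S M] (x : Fin n → M) : Prop :=
  ∃ y : Fin φ.m → M, ∀ j, ∑ i, φ.r j i • x i + ∑ l, φ.s j l • y l = 0

section order

variable {S : Type u} [Ring S] {n : ℕ} (X : Set (PP S × PP S))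

/-- `φ ≤ ψ` in the lattice `pp^n(X)`: `φ(M) ⊆ ψ(M)` for all modules `M` in the category. -/
def LeN (φ ψ : PPN S n) : Prop :=
  ∀ (M : Type u) [AddCommGroup M] [Module S M], InX X M → ∀ x : Fin n → M, φ.Sat x → ψ.Sat x

/-- `φ < ψ` in `pp^n(X)`. -/
def LtN (φ ψ : PPN S n) : Prop := LeN X φ ψ ∧ ¬ LeN X ψ φ

/-- `θ ≤ θ₁ + θ₂` in `pp^n(X)`: `θ(M) ⊆ θ₁(M) + θ₂(M)` for all `M` in the category. -/
def LeSumN (θ θ₁ θ₂ : PPN S n) : Prop :=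
  ∀ (M : Type u) [AddCommGroup M] [Module S M], InX X M → ∀ x : Fin n → M, θ.Sat x →
    ∃ p q : Fin n → M, θ₁.Sat p ∧ θ₂.Sat q ∧ p + q = x

/-- `θ₁ ∧ θ₂ ≤ θ` in `pp^n(X)`: `θ₁(M) ∩ θ₂(M) ⊆ θ(M)` for all `M` in the category. -/
def InfLeN (θ₁ θ₂ θ : PPN S n) : Prop :=
  ∀ (M : Type u) [AddCommGroup M] [Module S M], InX X M → ∀ x : Fin n → M, θ₁.Sat x →
    θ₂.Sat x → θ.Sat x

/-- A wide subposet of `pp^n(X)` (with at least two comparable elements). -/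
def IsWideN (P : Set (PPN S n)) : Prop :=
  (∃ φ ∈ P, ∃ ψ ∈ P, LtN X ψ φ) ∧
  ∀ φ ∈ P, ∀ ψ ∈ P, LtN X ψ φ →
    ∃ θ₁ ∈ P, ∃ θ₂ ∈ P, ∃ θ₁₁ ∈ P, ∃ θ₁₂ ∈ P, ∃ θ₂₁ ∈ P, ∃ θ₂₂ ∈ P,
      (¬ LeN X θ₁ θ₂ ∧ ¬ LeN X θ₂ θ₁) ∧
      (LtN X ψ θ₁ ∧ LtN X θ₁ φ) ∧ (LtN X ψ θ₂ ∧ LtN X θ₂ φ) ∧
      (LeSumN X θ₁₁ θ₁ θ₂ ∧ LtN X θ₁ θ₁₁ ∧ LtN X θ₁₂ θ₁ ∧ InfLeN X θ₁ θ₂ θ₁₂) ∧
      (LeSumN X θ₂₁ θ₁ θ₂ ∧ LtN X θ₂ θ₂₁ ∧ LtN X θ₂₂ θ₂ ∧ InfLeN X θ₁ θ₂ θ₂₂)

end order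

/-! ### Projection and restriction -/

section proj

variable {S : Type u} [Ring S] {n : ℕ} {M : Type v} [AddCommGroup M] [Module S M]

theorem PPN.sat_add {φ : PPN S n} {x y : Fin n → M} (hx : φ.Sat x) (hy : φ.Sat y) :
    φ.Sat (x + y) := by
  obtain ⟨p, hp⟩ := hx
  obtain ⟨q, hq⟩ := hy
  refine ⟨p + q, fun j => ?_⟩
  have h1 := hp j
  have h2 := hq j
  simp only [Pi.add_apply, smul_add, Finset.sum_add_distrib]
  rw [add_add_add_comm, h1, h2, add_zero]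

theorem PPN.sat_neg {φ : PPN S n} {x : Fin n → M} (hx : φ.Sat x) : φ.Sat (-x) := by
  obtain ⟨p, hp⟩ := hx
  refine ⟨-p, fun j => ?_⟩
  have h1 := hp j
  simp only [Pi.neg_apply, smul_neg, Finset.sum_neg_distrib]
  rw [← neg_add, h1, neg_zero]

theorem PPN.sat_sub {φ : PPN S n} {x y : Fin n → M} (hx : φ.Sat x) (hy : φ.Sat y) :
    φ.Sat (x - y) := by
  rw [sub_eq_add_neg]
  exact PPN.sat_add hx (PPN.sat_neg hy)

/-- `∃ z, φ(z, x)`: the first variable becomes a bound variable. -/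
def PPN.ex (φ : PPN S (n + 1)) : PPN S n where
  m := φ.m + 1
  e := φ.e
  r := fun j i => φ.r j i.succ
  s := fun j => Fin.cons (φ.r j 0) (φ.s j)

theorem PPN.sat_ex (φ : PPN S (n + 1)) (x : Fin n → M) :
    φ.ex.Sat x ↔ ∃ z : M, φ.Sat (Fin.cons z x : Fin (n + 1) → M) := by
  constructor
  · rintro ⟨y, hy⟩
    change Fin (φ.m + 1) → M at y
    refine ⟨y 0, fun l => y l.succ, fun j => ?_⟩
    have h1 : ∑ i, φ.r j i.succ • x i + ∑ l : Fin (φ.m + 1),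
        (Fin.cons (φ.r j 0) (φ.s j) : Fin (φ.m + 1) → S) l • y l = 0 := hy j
    rw [Fin.sum_univ_succ] at h1
    simp only [Fin.cons_zero, Fin.cons_succ] at h1
    rw [Fin.sum_univ_succ]
    simp only [Fin.cons_zero, Fin.cons_succ]
    rw [← h1]
    abel
  · rintro ⟨z, y, hy⟩
    refine ⟨(Fin.cons z y : Fin (φ.m + 1) → M), fun j => ?_⟩
    change ∑ i, φ.r j i.succ • x i + ∑ l : Fin (φ.m + 1),
        (Fin.cons (φ.r j 0) (φ.s j) : Fin (φ.m + 1) → S) l •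
          (Fin.cons z y : Fin (φ.m + 1) → M) l = 0
    rw [Fin.sum_univ_succ]
    simp only [Fin.cons_zero, Fin.cons_succ]
    have h1 := hy j
    rw [Fin.sum_univ_succ] at h1
    simp only [Fin.cons_zero, Fin.cons_succ] at h1
    rw [← h1]
    abel

/-- `φ(z, 0)`. -/
def PPN.rs (φ : PPN S (n + 1)) : PP S where
  m := φ.m
  e := φ.e
  r := fun j => φ.r j 0
  s := φ.s

theorem PPN.sat_rs (φ : PPN S (n + 1)) (z : M) :
    φ.rs.Sat z ↔ φ.Sat (Fin.cons z 0 : Fin (n + 1) → M) := by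
  have h1 : ∀ j, ∑ i, φ.r j i • (Fin.cons z 0 : Fin (n + 1) → M) i = φ.r j 0 • z := by
    intro j
    rw [Fin.sum_univ_succ]
    simp
  constructor
  · rintro ⟨y, hy⟩
    refine ⟨y, fun j => ?_⟩
    rw [h1]
    exact hy j
  · rintro ⟨y, hy⟩
    refine ⟨y, fun j => ?_⟩
    change φ.r j 0 • z + ∑ l, φ.s j l • (y : Fin φ.m → M) l = 0
    rw [← h1 j]
    exact hy j

end proj

/-! ### Good maps into `pp^n(X)` -/

/-- `μ` is a strictly monotone map on `[a, b]` (for the reversed order of `pp^n(X)`) which respects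
the join condition. -/
structure GoodN {T : Type u} [Preorder T] (J : T → T → T → Prop) {S : Type u} [Ring S]
    (X : Set (PP S × PP S)) {n : ℕ} (μ : T → PPN S n) (a b : T) : Prop where
  mono : ∀ x y, a ≤ x → x ≤ y → y ≤ b → LeN X (μ y) (μ x)
  strict : ∀ x y, a ≤ x → x < y → y ≤ b → ¬ LeN X (μ x) (μ y)
  join : ∀ t₁ t₂ w, a ≤ t₁ → t₁ ≤ b → a ≤ t₂ → t₂ ≤ b → a ≤ w → w ≤ b → J t₁ t₂ w →
    InfLeN X (μ t₁) (μ t₂) (μ w)

/-- The same for conditions in one variable. -/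
structure Good1 {T : Type u} [Preorder T] (J : T → T → T → Prop) {S : Type u} [Ring S]
    (X : Set (PP S × PP S)) (μ : T → PP S) (a b : T) : Prop where
  mono : ∀ x y, a ≤ x → x ≤ y → y ≤ b → Le X (μ y) (μ x)
  strict : ∀ x y, a ≤ x → x < y → y ≤ b → ¬ Le X (μ x) (μ y)
  join : ∀ t₁ t₂ w, a ≤ t₁ → t₁ ≤ b → a ≤ t₂ → t₂ ≤ b → a ≤ w → w ≤ b → J t₁ t₂ w →
    InfLe X (μ t₁) (μ t₂) (μ w)

section red

variable {T : Type u} [Preorder T] {J : T → T → T → Prop} {S : Type u} [Ring S]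
  {X : Set (PP S × PP S)}

theorem GoodN.rs {n : ℕ} {μ : T → PPN S (n + 1)} {a b : T} (h : GoodN J X μ a b)
    (hs : ∀ x y, a ≤ x → x < y → y ≤ b → ¬ Le X (μ x).rs (μ y).rs) :
    Good1 J X (fun t => (μ t).rs) a b where
  mono x y hx hxy hy M _ _ hM z hz := by
    rw [PPN.sat_rs] at hz ⊢
    exact h.mono x y hx hxy hy M hM _ hz
  strict := hs
  join t₁ t₂ w h1 h2 h3 h4 h5 h6 hJ M _ _ hM z hz1 hz2 := by
    rw [PPN.sat_rs] at hz1 hz2 ⊢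
    exact h.join t₁ t₂ w h1 h2 h3 h4 h5 h6 hJ M hM _ hz1 hz2

theorem cons_sub {n : ℕ} {M : Type v} [AddCommGroup M] (z z' : M) (x : Fin n → M) :
    (Fin.cons z x : Fin (n + 1) → M) - Fin.cons z' x = Fin.cons (z - z') 0 := by
  ext i
  refine Fin.cases ?_ (fun i => ?_) i
  · simp
  · simp

theorem cons_sub' {n : ℕ} {M : Type v} [AddCommGroup M] (z z' : M) (x : Fin n → M) :
    (Fin.cons z x : Fin (n + 1) → M) - Fin.cons (z - z') 0 = Fin.cons z' x := by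
  ext i
  refine Fin.cases ?_ (fun i => ?_) i
  · simp
  · simp

theorem GoodN.ex {n : ℕ} {μ : T → PPN S (n + 1)} {a b p q : T} (h : GoodN J X μ a b)
    (hp : a ≤ p) (hq : q ≤ b) (he : Le X (μ p).rs (μ q).rs) :
    GoodN J X (fun t => (μ t).ex) p q := by
  -- all the restrictions to the first variable agree
  have key : ∀ t, p ≤ t → t ≤ q → ∀ (M : Type u) [AddCommGroup M] [Module S M], InX X M →
      ∀ (z z' : M) (x : Fin n → M), (μ p).Sat (Fin.cons z x : Fin (n + 1) → M) →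
        (μ t).Sat (Fin.cons z' x : Fin (n + 1) → M) →
        (μ t).Sat (Fin.cons z x : Fin (n + 1) → M) := by
    intro t hpt htq M _ _ hM z z' x h1 h2
    have h3 : (μ p).Sat (Fin.cons z' x : Fin (n + 1) → M) :=
      h.mono p t hp hpt (htq.trans hq) M hM _ h2
    have h4 := PPN.sat_sub h3 h1
    rw [cons_sub, ← PPN.sat_rs] at h4
    have h5 := he M hM _ h4
    rw [PPN.sat_rs] at h5
    have h6 := h.mono t q (hp.trans hpt) htq hq M hM _ h5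
    have h7 := PPN.sat_sub h2 h6
    rwa [cons_sub'] at h7
  refine ⟨?_, ?_, ?_⟩
  · intro x y hx hxy hy M _ _ hM v hv
    rw [PPN.sat_ex] at hv ⊢
    obtain ⟨z, hz⟩ := hv
    exact ⟨z, h.mono x y (hp.trans hx) hxy (hy.trans hq) M hM _ hz⟩
  · intro x y hx hxy hy hcon
    refine h.strict x y (hp.trans hx) hxy (hy.trans hq) ?_
    intro M _ _ hM v hv
    have hv' : v = Fin.cons (v 0) (Fin.tail v) := (Fin.cons_self_tail v).symm
    rw [hv'] at hv ⊢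
    obtain ⟨z, hz⟩ := (PPN.sat_ex _ _).1 (hcon M hM _ ((PPN.sat_ex _ _).2 ⟨v 0, hv⟩))
    exact key y (hx.trans hxy.le) hy M hM (v 0) z _
      (h.mono p x hp hx (hxy.le.trans (hy.trans hq)) M hM _ hv) hz
  · intro t₁ t₂ w h1 h2 h3 h4 h5 h6 hJ M _ _ hM x hx1 hx2
    rw [PPN.sat_ex] at hx1 hx2 ⊢
    obtain ⟨z₁, hz1⟩ := hx1
    obtain ⟨z₂, hz2⟩ := hx2
    refine ⟨z₁, h.join t₁ t₂ w (hp.trans h1) (h2.trans hq) (hp.trans h3) (h4.trans hq)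
      (hp.trans h5) (h6.trans hq) hJ M hM _ hz1 ?_⟩
    exact key t₂ h3 h4 M hM z₁ z₂ x (h.mono p t₁ hp h1 (h2.trans hq) M hM _ hz1) hz2

/-- Reduction to one variable. -/
theorem GoodN.red {n : ℕ} {μ : T → PPN S n} {a b : T} (hab : a < b) (h : GoodN J X μ a b) :
    ∃ (p q : T) (ν : T → PP S), p < q ∧ Good1 J X ν p q := by
  induction n generalizing a b with
  | zero =>
    refine absurd ?_ (h.strict a b le_rfl hab le_rfl)
    intro M _ _ _ x _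
    refine ⟨0, fun j => ?_⟩
    simp
  | succ n ih =>
    by_cases hs : ∀ x y, a ≤ x → x < y → y ≤ b → ¬ Le X (μ x).rs (μ y).rs
    · exact ⟨a, b, fun t => (μ t).rs, hab, h.rs hs⟩
    · push Not at hs
      obtain ⟨p, q, hp, hpq, hq, he⟩ := hs
      exact ih hpq (h.ex hp hq he)

end red

/-- From a wide poset to a branching poset with a good map. -/
theorem exists_branchingN {S : Type u} [Ring S] {X : Set (PP S × PP S)} {n : ℕ}
    {P : Set (PPN S n)} (hP : IsWideN X P) :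
    ∃ (T : Type u) (_ : Preorder T) (_ : Countable T) (J : T → T → T → Prop) (a b : T)
      (μ : T → PP S), Branching J ∧ a < b ∧ Good1 J X μ a b := by
  classical
  obtain ⟨⟨φ₀, hφ₀, ψ₀, hψ₀, h0⟩, hw⟩ := hP
  have key : ∀ φ ψ : PPN S n, ∃ t : Fin 4 → PPN S n, (φ ∈ P → ψ ∈ P → ∀ i, t i ∈ P) ∧
      (φ ∈ P → ψ ∈ P → LtN X ψ φ → (LtN X ψ (t 0) ∧ LtN X (t 0) φ) ∧
        (LtN X ψ (t 1) ∧ LtN X (t 1) φ) ∧ (LtN X (t 2) (t 0) ∧ InfLeN X (t 0) (t 1) (t 2)) ∧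
        (LtN X (t 3) (t 1) ∧ InfLeN X (t 0) (t 1) (t 3))) := by
    intro φ ψ
    by_cases h : φ ∈ P ∧ ψ ∈ P ∧ LtN X ψ φ
    · obtain ⟨t₁, h1, t₂, h2, t₁₁, h3, t₁₂, h4, t₂₁, h5, t₂₂, h6, -, h7, h8,
        ⟨-, -, h9, h10⟩, ⟨-, -, h11, h12⟩⟩ := hw φ h.1 ψ h.2.1 h.2.2
      refine ⟨![t₁, t₂, t₁₂, t₂₂], fun _ _ i => ?_, fun _ _ _ => ?_⟩
      · fin_cases i
        exacts [h1, h2, h4, h6]
      · exact ⟨h7, h8, ⟨h9, h10⟩, ⟨h11, h12⟩⟩
    · exact ⟨fun _ => φ, fun h1 _ _ => h1, fun h1 h2 h3 => (h ⟨h1, h2, h3⟩).elim⟩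
  choose g hg1 hg2 using key
  obtain ⟨P', hB, hP', hc, hcl⟩ := exists_cc P g (fun a ha b hb i => hg1 a b ha hb i)
    (B := {φ₀, ψ₀}) (by
      rintro x (rfl | rfl)
      exacts [hφ₀, hψ₀]) (Set.toFinite _).countable
  let T : Type u := P'
  let _ : Preorder T :=
    { le := fun x y => LeN X y.1 x.1
      le_refl := fun x M _ _ _ v hv => hv
      le_trans := fun x y z hxy hyz M _ _ hM v hv => hxy M hM v (hyz M hM v hv) }
  have hlt : ∀ x y : T, x < y ↔ LtN X y.1 x.1 := fun x y => Iff.rfl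
  let J : T → T → T → Prop := fun t₁ t₂ w => InfLeN X t₁.1 t₂.1 w.1
  have hT : Branching J := by
    intro a b hab
    obtain ⟨⟨a1, a2⟩, ⟨b1, b2⟩, ⟨c1, c2⟩, ⟨d1, d2⟩⟩ := hg2 a.1 b.1 (hP' a.2) (hP' b.2) hab
    have hmem : ∀ i, g a.1 b.1 i ∈ P' := hcl a.1 a.2 b.1 b.2
    refine ⟨⟨g a.1 b.1 0, hmem 0⟩, ⟨g a.1 b.1 1, hmem 1⟩, ⟨g a.1 b.1 2, hmem 2⟩,
      ⟨g a.1 b.1 3, hmem 3⟩, a2.1, b2.1, c1, d1, ?_, ?_, c2, d2⟩
    · exact fun M _ _ hM x hx => c2 M hM x (a1.1 M hM x hx) (b1.1 M hM x hx)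
    · exact fun M _ _ hM x hx => d2 M hM x (a1.1 M hM x hx) (b1.1 M hM x hx)
  let a : T := ⟨φ₀, hB (Or.inl rfl)⟩
  let b : T := ⟨ψ₀, hB (Or.inr rfl)⟩
  have hab : a < b := h0
  have hgood : GoodN J X (fun t : T => t.1) a b := ⟨fun x y _ hxy _ => hxy,
    fun x y _ hxy _ => hxy.2, fun t₁ t₂ w _ _ _ _ _ _ hJ => hJ⟩
  obtain ⟨p, q, ν, hpq, hν⟩ := hgood.red hab
  exact ⟨T, inferInstance, hc.to_subtype, J, p, q, ν, hT, hpq, hν⟩

end Pool.Agent.Helper56.NB
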