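import Pool.Agent.Helper56.NB.Defs
import Pool.Agent.Helper56.NB.PPN

/-!
# The quotient without uniform submodules for a countable ring and a definable category
-/

namespace Pool.Agent.Helper56.NB

open Pool.Agent.H35SD Pool.Agent.Helper56.SDD

universe u v

section split

variable {S : Type u} [Ring S]

omit [Ring S] in
theorem pp_countable [Countable S] : Countable (PP S) := by
  let F : PP S → Σ p : ℕ × ℕ, (Fin p.2 → S) × (Fin p.2 → Fin p.1 → S) :=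
    fun φ => ⟨(φ.m, φ.e), (φ.r, φ.s)⟩
  have hF : Function.Injective F := by
    rintro ⟨m, e, r, s⟩ ⟨m', e', r', s'⟩ h
    simp only [F, Sigma.mk.injEq, Prod.mk.injEq] at h
    obtain ⟨⟨rfl, rfl⟩, h⟩ := h
    have h2 := eq_of_heq h
    simp only [Prod.mk.injEq] at h2
    obtain ⟨rfl, rfl⟩ := h2
    rfl
  exact hF.countable

theorem exists_splitting_countable [Countable S] (X : Set (PP S × PP S)) {T : Type u}
    [Preorder T] {J : T → T → T → Prop} (hT : Branching J) {a b : T} (hab : a < b)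
    (ν : T → PP S) (hν : Good1 J X ν a b) :
    ∃ (C₀ : PP S) (I : Set (Qt X)), (∀ x y, y ∈ I → x ≤ y → x ∈ I) ∧
      (∀ x y, x ∈ I → y ∈ I → x ⊔ y ∈ I) ∧ ⊥ ∈ I ∧ cl X C₀ ∉ I ∧
      ∀ x, x ≤ cl X C₀ → x ∉ I → ∃ z₁ z₂, z₁ ∉ I ∧ z₂ ∉ I ∧ z₁ ≤ x ∧ z₂ ≤ x ∧
        ∀ c ∈ I, (z₁ ⊔ c) ⊓ (z₂ ⊔ c) ∈ I := by
  classical
  let μ : T → Qt X := fun x => cl X (ν x)
  have _ : Countable (PP S) := pp_countable
  have _ : Countable (Qt X) :=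
    Function.Surjective.countable (f := cl X) (fun a => ⟨rp X a, cl_rp X a⟩)
  have hgood : Good J μ a b := by
    refine ⟨fun x y hx hxy hy => (cl_le X).2 (hν.mono x y hx hxy hy), fun x y hx hxy hy => ?_,
      fun t₁ t₂ w h1 h2 h3 h4 h5 h6 hJ => ?_⟩
    · refine lt_of_le_not_ge ((cl_le X).2 (hν.mono x y hx hxy.le hy)) fun h' => ?_
      exact hν.strict x y hx hxy hy ((cl_le X).1 h')
    · change cl X (ν w) ≤ cl X (ν t₁) ⊔ cl X (ν t₂)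
      rw [cl_sup, cl_le]
      exact fun M _ _ hM x hx =>
        hν.join t₁ t₂ w h1 h2 h3 h4 h5 h6 hJ M hM x (sat_inf.1 hx).1 (sat_inf.1 hx).2
  have hbig : Big J (μ a) (μ b) := ⟨a, b, hab, μ, hgood, le_rfl, le_rfl⟩
  obtain ⟨f, f1, f2, f3, f4, f5⟩ := generic_ideal (big_rel hT) hbig
  refine ⟨ν b, f, f1, f2, f1 _ _ f3 bot_le, f4, ?_⟩
  intro x _ hx
  obtain ⟨y₁, y₂, h1, h2, ⟨c, hc, hc1, hc2⟩, h3⟩ := f5 x hx
  have key : ∀ y : Qt X, y ≤ x ⊔ c → (x ⊓ (y ⊔ c)) ⊔ c = y ⊔ c := by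
    intro y hy
    apply le_antisymm
    · exact sup_le inf_le_right le_sup_right
    · have h4 : y ⊔ c ≤ (x ⊔ c) ⊓ (y ⊔ c) := le_inf (sup_le hy le_sup_right) le_rfl
      refine h4.trans ?_
      have h5 : (x ⊔ c) ⊓ (y ⊔ c) = (c ⊔ x) ⊓ (y ⊔ c) := by rw [sup_comm x c]
      rw [h5, sup_inf_assoc_of_le x (le_sup_right : c ≤ y ⊔ c), sup_comm]
  refine ⟨x ⊓ (y₁ ⊔ c), x ⊓ (y₂ ⊔ c), fun h => h1 ?_, fun h => h2 ?_, inf_le_left, inf_le_left,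
    fun c' hc' => ?_⟩
  · have := f2 _ _ h hc
    rw [key _ hc1] at this
    exact f1 _ _ this le_sup_left
  · have := f2 _ _ h hc
    rw [key _ hc2] at this
    exact f1 _ _ this le_sup_left
  · refine f1 _ _ (h3 (c ⊔ c') (f2 _ _ hc hc')) (inf_le_inf ?_ ?_)
    · exact sup_le (inf_le_right.trans (sup_le le_sup_left (le_sup_left.trans le_sup_right)))
        (le_sup_right.trans le_sup_right)
    · exact sup_le (inf_le_right.trans (sup_le le_sup_left (le_sup_left.trans le_sup_right)))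
        (le_sup_right.trans le_sup_right)

end split

theorem exists_quotient_mem {S : Type u} [Ring S] [Countable S] (X : Set (PP S × PP S))
    {T : Type u} [Preorder T] {J : T → T → T → Prop} (hT : Branching J) {a b : T} (hab : a < b)
    (ν : T → PP S) (hν : Good1 J X ν a b) :
    ∃ (V : Type u) (_ : AddCommGroup V) (_ : Module (Module.End Sᵐᵒᵖ (CC Sᵐᵒᵖ)) V),
      Nontrivial V ∧ NoUnif (Module.End Sᵐᵒᵖ (CC Sᵐᵒᵖ)) V ∧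
      (∀ q : V, q ≠ 0 → ∃ j, pr Sᵐᵒᵖ j • q ≠ 0) ∧
      ∀ σ ∈ X, ∀ (n : ℕ) (b : Fin n → CC Sᵐᵒᵖ), (∀ k, b k ∈ σ.2.dual (CC Sᵐᵒᵖ)) →
        ∀ q : V, q ≠ 0 → ∃ g : Module.End Sᵐᵒᵖ (CC Sᵐᵒᵖ),
          (∀ k, g (b k) ∈ σ.1.dual (CC Sᵐᵒᵖ)) ∧ g • q ≠ 0 := by
  classical
  obtain ⟨C₀, I, i1, i2, i4, i5, i6⟩ := exists_splitting_countable X hT hab ν hν
  let X' : Submodule (Module.End Sᵐᵒᵖ (CC Sᵐᵒᵖ)) (CC Sᵐᵒᵖ) := C₀.dual (CC Sᵐᵒᵖ)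
  let f : Set (Submodule (Module.End Sᵐᵒᵖ (CC Sᵐᵒᵖ)) (CC Sᵐᵒᵖ)) :=
    {K | K ≤ X' ∧ ∃ φ : PP S, φ.dual (CC Sᵐᵒᵖ) = K ∧ cl X φ ∈ I}
  have hcl : ∀ {φ ψ : PP S}, ψ.dual (CC Sᵐᵒᵖ) ≤ φ.dual (CC Sᵐᵒᵖ) → cl X ψ ≤ cl X φ :=
    fun h => (cl_le X).2 (le_of_dual X h)
  have hf : ∀ φ : PP S, φ.dual (CC Sᵐᵒᵖ) ∈ f → cl X φ ∈ I := by
    rintro φ ⟨-, ψ, h1, h2⟩
    exact i1 _ _ h2 (hcl h1.ge)
  have hfX : ∀ K ∈ f, K ≤ X' := fun K hK => hK.1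
  have hlow : ∀ x y : Submodule (Module.End Sᵐᵒᵖ (CC Sᵐᵒᵖ)) (CC Sᵐᵒᵖ), x.FG → y ∈ f →
      x ≤ y → x ∈ f := by
    rintro x _ hx ⟨hy, φ, rfl, hφ⟩ hxy
    obtain ⟨χ, rfl⟩ := exists_dual_eq x hx
    exact ⟨hxy.trans hy, χ, rfl, i1 _ _ hφ (hcl hxy)⟩
  have hsup : ∀ x y, x ∈ f → y ∈ f → x ⊔ y ∈ f := by
    rintro _ _ ⟨hx, φ, rfl, hφ⟩ ⟨hy, ψ, rfl, hψ⟩
    refine ⟨sup_le hx hy, φ.inf ψ, dual_inf _ _ _, ?_⟩
    rw [← cl_sup]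
    exact i2 _ _ hφ hψ
  obtain ⟨χ₀, hχ₀⟩ := exists_dual_eq (S := S) ⊥ Submodule.fg_bot
  have hbot : (⊥ : Submodule (Module.End Sᵐᵒᵖ (CC Sᵐᵒᵖ)) (CC Sᵐᵒᵖ)) ∈ f := by
    refine ⟨bot_le, χ₀, hχ₀, i1 _ _ i4 ?_⟩
    have h1 := cl_rp X (⊥ : Qt X)
    rw [← h1]
    exact hcl (by rw [hχ₀]; exact bot_le)
  have hXf : X' ∉ f := fun h => i5 (hf C₀ h)
  have hinfle : ∀ {ω α β : PP S}, ω.dual (CC Sᵐᵒᵖ) ≤ α.dual (CC Sᵐᵒᵖ) ⊓ β.dual (CC Sᵐᵒᵖ) →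
      cl X ω ≤ cl X α ⊓ cl X β := fun h =>
    le_inf (hcl (h.trans inf_le_left)) (hcl (h.trans inf_le_right))
  have hsplit : ∀ x : Submodule (Module.End Sᵐᵒᵖ (CC Sᵐᵒᵖ)) (CC Sᵐᵒᵖ), x.FG → x ≤ X' →
      x ∉ f → ∃ y₁ y₂ : Submodule (Module.End Sᵐᵒᵖ (CC Sᵐᵒᵖ)) (CC Sᵐᵒᵖ),
        y₁.FG ∧ y₂.FG ∧ y₁ ≤ X' ∧ y₂ ≤ X' ∧ y₁ ∉ f ∧ y₂ ∉ f ∧
        (∃ c ∈ f, y₁ ≤ x ⊔ c ∧ y₂ ≤ x ⊔ c) ∧ ∀ c ∈ f, (y₁ ⊔ c) ⊓ (y₂ ⊔ c) ∈ f := by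
    intro x hx hxX hxf
    obtain ⟨χ, rfl⟩ := exists_dual_eq x hx
    have hχ : cl X χ ∉ I := fun h => hxf ⟨hxX, χ, rfl, h⟩
    obtain ⟨z₁, z₂, hz1, hz2, hz1', hz2', hz⟩ := i6 _ (hcl hxX) hχ
    have hfg : ∀ z : Qt X, ((rp X z).dual (CC Sᵐᵒᵖ) ⊓ χ.dual (CC Sᵐᵒᵖ)).FG := fun z =>
      CC_coherent _ _ _ (dual_fg _) (dual_fg _)
    have hnot : ∀ z : Qt X, z ∉ I → z ≤ cl X χ →
        (rp X z).dual (CC Sᵐᵒᵖ) ⊓ χ.dual (CC Sᵐᵒᵖ) ∉ f := by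
      intro z hz hzx hcon
      obtain ⟨η, hη⟩ := exists_dual_eq _ (hfg z)
      rw [← hη] at hcon
      apply hz
      have h1 := hf η hcon
      refine i1 _ _ h1 ?_
      have h2 : (psum (rp X z) χ).dual (CC Sᵐᵒᵖ) ≤ η.dual (CC Sᵐᵒᵖ) := by
        rw [hη]
        refine le_inf (dual_le ?_) (dual_le ?_)
        · intro M _ _ v hv
          exact sat_psum.2 ⟨v, 0, hv, sat_zero _, add_zero v⟩
        · intro M _ _ v hv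
          exact sat_psum.2 ⟨0, v, sat_zero _, hv, zero_add v⟩
      have h3 := hcl h2
      rw [← cl_inf, cl_rp, inf_eq_left.2 hzx] at h3
      exact h3
    refine ⟨_, _, hfg z₁, hfg z₂, inf_le_right.trans hxX, inf_le_right.trans hxX,
      hnot z₁ hz1 hz1', hnot z₂ hz2 hz2', ⟨⊥, hbot, ?_, ?_⟩, ?_⟩
    · rw [sup_bot_eq]
      exact inf_le_right
    · rw [sup_bot_eq]
      exact inf_le_right
    · rintro _ ⟨hc, γ, rfl, hγ⟩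
      have h1 : ((rp X z₁).dual (CC Sᵐᵒᵖ) ⊓ χ.dual (CC Sᵐᵒᵖ) ⊔ γ.dual (CC Sᵐᵒᵖ)) ⊓
          ((rp X z₂).dual (CC Sᵐᵒᵖ) ⊓ χ.dual (CC Sᵐᵒᵖ) ⊔ γ.dual (CC Sᵐᵒᵖ)) |>.FG :=
        CC_coherent _ _ _ ((hfg z₁).sup (dual_fg _)) ((hfg z₂).sup (dual_fg _))
      obtain ⟨ω, hω⟩ := exists_dual_eq _ h1
      refine ⟨inf_le_left.trans (sup_le (inf_le_right.trans hxX) hc), ω, hω, ?_⟩
      refine i1 _ _ (hz _ hγ) ?_
      have h2 : ω.dual (CC Sᵐᵒᵖ) ≤ ((rp X z₁).inf γ).dual (CC Sᵐᵒᵖ) ⊓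
          ((rp X z₂).inf γ).dual (CC Sᵐᵒᵖ) := by
        rw [hω, dual_inf, dual_inf]
        exact inf_le_inf (sup_le_sup_right _root_.inf_le_left _)
          (sup_le_sup_right _root_.inf_le_left _)
      have h3 := hinfle h2
      rw [← cl_sup, ← cl_sup, cl_rp, cl_rp] at h3
      exact h3
  obtain ⟨F, hnt, hnu, hmem, hkey⟩ := quo_noUnif_mem X' (dual_fg _) f hfX hlow hsup ⊥ hbot hXf
    hsplit
  refine ⟨X' ⧸ F, inferInstance, inferInstance, hnt, hnu, ?_, ?_⟩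
  · intro q hq
    obtain ⟨x, rfl⟩ := Submodule.Quotient.mk_surjective F q
    by_contra hcon
    push Not at hcon
    apply hq
    obtain ⟨F', hF'⟩ := CC_sum Sᵐᵒᵖ (x : CC Sᵐᵒᵖ)
    have h1 : x = ∑ j ∈ F', pr Sᵐᵒᵖ j • x := by
      apply Subtype.ext
      rw [hF' F' subset_rfl, Submodule.coe_sum]
      rfl
    rw [h1]
    change (Submodule.mkQ F) _ = 0
    rw [map_sum]
    refine Finset.sum_eq_zero fun j _ => ?_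
    rw [map_smul]
    exact hcon j
  · rintro ⟨φ, ψ⟩ hσ
    have hone : ∀ (b : CC Sᵐᵒᵖ), b ∈ ψ.dual (CC Sᵐᵒᵖ) → ∀ q : X' ⧸ F,
        (∀ g : Module.End Sᵐᵒᵖ (CC Sᵐᵒᵖ), g b ∈ φ.dual (CC Sᵐᵒᵖ) → g • q = 0) → q = 0 := by
      intro b hb q hq
      obtain ⟨x, rfl⟩ := Submodule.Quotient.mk_surjective F q
      obtain ⟨χ, ξ, h1, h2, h3⟩ := torsion (φ := φ) (x := x.1) hb
      have hrel : ∀ g : Module.End Sᵐᵒᵖ (CC Sᵐᵒᵖ), g b ∈ φ.dual (CC Sᵐᵒᵖ) → g • x ∈ F := by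
        intro g hg
        have h6 : (Submodule.Quotient.mk (g • x) : X' ⧸ F) = 0 := hq g hg
        exact (Submodule.Quotient.mk_eq_zero F).1 h6
      have hχ : χ.dual (CC Sᵐᵒᵖ) ∈ f := by
        refine hkey _ (dual_fg χ) fun y hy => ?_
        obtain ⟨g, hg, rfl⟩ := (h1 y).1 hy
        exact (hmem (g • x)).1 (hrel g hg)
      have hχI := hf χ hχ
      have hLe : Le X χ ξ := by
        intro M _ _ hM m hm
        exact h3 M (hM (φ, ψ) hσ) m hm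
      have hξI : cl X ξ ∈ I := i1 _ _ hχI ((cl_le X).2 hLe)
      have hξX : ξ.dual (CC Sᵐᵒᵖ) ≤ X' := by
        intro y hy
        obtain ⟨g, rfl⟩ := (h2 y).1 hy
        exact X'.smul_mem g x.2
      have hx : x ∈ F := (hmem x).2 ⟨_, ⟨hξX, ξ, rfl, hξI⟩, (h2 _).2 ⟨1, rfl⟩⟩
      exact (Submodule.Quotient.mk_eq_zero F).2 hx
    intro n
    induction n with
    | zero =>
      intro b _ q hq
      exact ⟨1, fun k => k.elim0, by rwa [one_smul]⟩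
    | succ n ih =>
      intro b hb q hq
      obtain ⟨g, hg, hgq⟩ := ih (fun k => b k.succ) (fun k => hb k.succ) q hq
      by_contra hcon
      push Not at hcon
      refine hgq (hone (g (b 0)) ((ψ.dual (CC Sᵐᵒᵖ)).smul_mem g (hb 0)) _ fun g' hg' => ?_)
      rw [← mul_smul]
      refine hcon (g' * g) fun k => ?_
      refine Fin.cases ?_ (fun k => ?_) k
      · exact hg'
      · exact (φ.dual (CC Sᵐᵒᵖ)).smul_mem g' (hg k)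

end Pool.Agent.Helper56.NB
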