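import Pool.Agent.Helper19.NB.ECP
import Pool.Agent.Helper24.NB.FRM
import Pool.Agent.Helper24.NB.SAT
import Pool.Agent.Helper40.NB.SK2
import Pool.Agent.Helper44.NB.BCN
import Pool.Agent.Helper56.NB.TQ
import Pool.Agent.Helper56.NB.Red
import Pool.Agent.Helper56.NB.BCM
import Pool.Agent.Helper86.NB.Cor

/-!
# Superdecomposable pure-injective modules over algebras over a commutative Noetherian ring
-/

open scoped TensorProduct

namespace Pool.Agent.Helper56.NB

open Pool.Agent.H35SD Pool.Agent.Helper56.SDD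

universe u v

/-! ### transport -/

theorem sat_map_compHom {S S' : Type u} [Ring S] [Ring S'] (e : S ≃+* S') (φ : PP S)
    {N : Type u} [AddCommGroup N] [Module S N] (x : N) :
    letI : Module S' N := Module.compHom N e.symm.toRingHom
    (φ.map e).Sat x ↔ φ.Sat x := by
  let _ : Module S' N := Module.compHom N e.symm.toRingHom
  have hsm : ∀ (s : S) (x : N), e s • x = s • x := fun s x => by
    change e.symm (e s) • x = s • x
    rw [RingEquiv.symm_apply_apply]
  constructor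
  · rintro ⟨y, hy⟩
    refine ⟨y, fun j => ?_⟩
    have h1 := hy j
    change e (φ.r j) • x + ∑ l, e (φ.s j l) • y l = 0 at h1
    simpa only [hsm] using h1
  · rintro ⟨y, hy⟩
    refine ⟨y, fun j => ?_⟩
    change e (φ.r j) • x + ∑ l, e (φ.s j l) • y l = 0
    simpa only [hsm] using hy j

/-- Transport of the conclusion along a ring isomorphism. -/
theorem transport_mem {S S' : Type u} [Ring S] [Ring S'] (e : S ≃+* S')
    (X : Set (PP S × PP S))
    (h : ∃ (N : Type u) (_ : AddCommGroup N) (_ : Module S N),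
      InX X N ∧ PureInjective S N ∧ Superdecomposable S N) :
    ∃ (N : Type u) (_ : AddCommGroup N) (_ : Module S' N),
      InX (mapX e X) N ∧ PureInjective S' N ∧ Superdecomposable S' N := by
  obtain ⟨N, iN, mN, hX, hpi, hnt, hsd⟩ := h
  let mN' : Module S' N := Module.compHom N e.symm.toRingHom
  have hsm : ∀ (s : S') (x : N), s • x = e.symm s • x := fun s x => rfl
  refine ⟨N, iN, mN', ?_, ?_, hnt, ?_⟩
  · rintro _ ⟨σ, hσ, rfl⟩ x hx
    exact (sat_map_compHom e σ.2 x).2 (hX σ hσ x ((sat_map_compHom e σ.1 x).1 hx))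
  · intro A B iA iB mA mB f hf g
    let mA' : Module S A := Module.compHom A e.toRingHom
    let mB' : Module S B := Module.compHom B e.toRingHom
    have hsA : ∀ (s : S) (x : A), s • x = e s • x := fun s x => rfl
    have hsB : ∀ (s : S) (x : B), s • x = e s • x := fun s x => rfl
    let f' : A →ₗ[S] B :=
      { toFun := f
        map_add' := f.map_add
        map_smul' := fun s x => by
          rw [hsA, f.map_smul]; rfl }
    let g' : A →ₗ[S] N :=
      { toFun := g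
        map_add' := g.map_add
        map_smul' := fun s x => by
          rw [hsA, g.map_smul, hsm, RingEquiv.symm_apply_apply]; rfl }
    have hf' : PureEmb f' := by
      refine ⟨hf.1, ?_⟩
      rintro m n r a ⟨y, hy⟩
      obtain ⟨x, hx⟩ := hf.2 m n (fun i j => e (r i j)) a ⟨y, hy⟩
      exact ⟨x, hx⟩
    obtain ⟨h', hh'⟩ := hpi A B f' hf' g'
    refine ⟨{ toFun := h', map_add' := h'.map_add, map_smul' := fun s x => ?_ }, hh'⟩
    change h' (s • x) = s • h' x
    have h1 : s • x = (e.symm s) • x := by rw [hsB, RingEquiv.apply_symm_apply]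
    rw [h1, h'.map_smul, hsm]
  · intro X Y hXY hX
    -- translate submodules
    let F : Submodule S' N → Submodule S N := fun Z =>
      { carrier := Z
        add_mem' := fun ha hb => Z.add_mem ha hb
        zero_mem' := Z.zero_mem
        smul_mem' := fun s x hx => by
          have : s • x = e s • x := by rw [hsm, RingEquiv.symm_apply_apply]
          change s • x ∈ Z
          rw [this]
          exact Z.smul_mem _ hx }
    let G : Submodule S N → Submodule S' N := fun Z =>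
      { carrier := Z
        add_mem' := fun ha hb => Z.add_mem ha hb
        zero_mem' := Z.zero_mem
        smul_mem' := fun s x hx => by
          change s • x ∈ Z
          rw [hsm]
          exact Z.smul_mem _ hx }
    let Φ : Submodule S' N ≃o Submodule S N :=
      { toFun := F
        invFun := G
        left_inv := fun Z => rfl
        right_inv := fun Z => rfl
        map_rel_iff' := Iff.rfl }
    have h1 : IsCompl (Φ X) (Φ Y) := (OrderIso.isCompl_iff Φ).1 hXY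
    have h2 : Φ X ≠ ⊥ := fun h0 => hX ((map_eq_bot_iff Φ).1 h0)
    obtain ⟨X₁, X₂, a1, a2, a3, a4⟩ := hsd _ _ h1 h2
    refine ⟨Φ.symm X₁, Φ.symm X₂, ?_, ?_, ?_, ?_⟩
    · exact fun h0 => a1 ((map_eq_bot_iff Φ.symm).1 h0)
    · exact fun h0 => a2 ((map_eq_bot_iff Φ.symm).1 h0)
    · rw [← InfHomClass.map_inf, a3, map_bot]
    · rw [← map_sup, a4, OrderIso.symm_apply_apply]

/-! ### the theorem over a tensor product -/

theorem main_tensor {C : Type u} [CommRing C] [IsNoetherianRing C] {C₀ : Subring C}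
    (hC : GoodSub C₀) {S₀ : Type u} [Ring S₀] [Algebra C₀ S₀] [Countable S₀]
    (X : Set (PP S₀ × PP S₀)) {T : Type u} [Preorder T] {J : T → T → T → Prop}
    (hT : Branching J) {a₀ b₀ : T} (hab : a₀ < b₀) (ν : T → PP S₀) (hν : Good1 J X ν a₀ b₀) :
    ∃ (N : Type u) (_ : AddCommGroup N) (_ : Module (C ⊗[C₀] S₀) N),
      InX (mapX (fun s => (1 : C) ⊗ₜ[C₀] s) X) N ∧ PureInjective (C ⊗[C₀] S₀) N ∧
        Superdecomposable (C ⊗[C₀] S₀) N := by
  have _ := hC.faithfullyFlat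
  obtain ⟨V, _, _, hVn, hVu, hVε, hVT⟩ := exists_quotient_mem X hT hab ν hν
  obtain ⟨Q, _, _, hQn, hQu, hQB⟩ := baseChange_noUnif_noeth_of hC hC.noeth hC.mem_of_mem_map
    hC.prime hVu
  have hc := corner_flat (k := C) (thL C₀ S₀) (CC_corner S₀)
  have hε : ∀ q : Q, q ≠ 0 → ∃ j, ((1 : C) ⊗ₜ[C₀] pr S₀ᵐᵒᵖ j) • q ≠ 0 := by
    intro q hq
    obtain ⟨b, ⟨j, rfl⟩, hb⟩ := hQB (Set.range (pr S₀ᵐᵒᵖ)) (fun q hq => by
      obtain ⟨j, hj⟩ := hVε q hq
      exact ⟨_, ⟨j, rfl⟩, hj⟩) q hq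
    exact ⟨j, hb⟩
  obtain ⟨W, _, _, i, hW, hi, hess, hpi, hsd⟩ := exists_sd_mem hc Q hQu hε
  refine ⟨hc.cor W, inferInstance, inferInstance, ?_, hpi, hsd⟩
  rintro _ ⟨σ, hσ, rfl⟩ v hv
  refine sat_of_ann_flat hc hW σ.2 v ?_
  intro c hcd
  by_contra hne
  obtain ⟨l, q, hlq, hq0⟩ := hess _ hne
  obtain ⟨n, a, g, rfl⟩ := exists_sum_tmul l
  obtain ⟨b, hb, hbq⟩ := hQB {b | ∀ k : Fin n, b (g k c) ∈ σ.1.dual (CC S₀ᵐᵒᵖ)}
    (fun q hq => hVT σ hσ n (fun k => g k c)
      (fun k => (σ.2.dual (CC S₀ᵐᵒᵖ)).smul_mem (g k) hcd) q hq) q hq0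
  apply hbq
  apply hi
  rw [map_smul, ← hlq, map_zero, ← mul_smul, ← mul_smul, Finset.mul_sum, Finset.sum_mul,
    Finset.sum_smul]
  refine Finset.sum_eq_zero fun k _ => ?_
  have h1 : ((1 : C) ⊗ₜ[C₀] b) * (a k ⊗ₜ[C₀] g k) * ((1 : C) ⊗ₜ[C₀] cmod_h S₀ c) =
      (a k ⊗ₜ[C₀] (1 : Module.End S₀ᵐᵒᵖ (CC S₀ᵐᵒᵖ))) *
        ((1 : C) ⊗ₜ[C₀] cmod_h S₀ (b (g k c))) := by
    rw [Algebra.TensorProduct.tmul_mul_tmul, Algebra.TensorProduct.tmul_mul_tmul,
      Algebra.TensorProduct.tmul_mul_tmul, one_mul, mul_one, one_mul, mul_assoc,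
      cmod_mul_h, cmod_mul_h]
  rw [h1, mul_smul, ann_of_sat_flat hc σ.1 v hv _ (hb k), smul_zero]

/-! ### the final theorem -/

theorem noetherian_base {C S : Type u} [CommRing C] [IsNoetherianRing C] [Ring S] [Algebra C S]
    (hS : ∃ A : Set S, A.Countable ∧ Algebra.adjoin C A = ⊤) (X : Set (PP S × PP S))
    (hX : X.Countable) (n : ℕ) (hw : ∃ P : Set (PPN S n), IsWideN X P) :
    ∃ (N : Type u) (_ : AddCommGroup N) (_ : Module S N),
      InX X N ∧ PureInjective S N ∧ Superdecomposable S N := by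
  classical
  obtain ⟨P, hP⟩ := hw
  obtain ⟨T, _, _, J, a₀, b₀, ν, hT, hab, hν⟩ := exists_branchingN hP
  obtain ⟨C₀, S₀, hC₀c, hC₀, hS₀c, hA, e, he⟩ := exists_form_noeth hS
    ((⋃ t, (ν t).coeffs) ∪ ⋃ σ ∈ X, (σ.1.coeffs ∪ σ.2.coeffs))
    ((Set.countable_iUnion fun t => (ν t).coeffs_countable).union
      (hX.biUnion fun σ _ => σ.1.coeffs_countable.union σ.2.coeffs_countable))
  have _ := hC₀.faithfullyFlat
  let f : S₀ →+* S := (S₀.val : S₀ →+* S)
  have hef : ∀ s, e (1 ⊗ₜ s) = f s := fun s => by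
    rw [he, one_smul]
    rfl
  have hlift : ∀ φ : PP S, φ.coeffs ⊆ (S₀ : Set S) → ∃ φ₀ : PP S₀, φ₀.map f = φ := by
    intro φ hφ
    exact ⟨{  m := φ.m
              e := φ.e
              r := fun j => ⟨φ.r j, hφ (Or.inl ⟨j, rfl⟩)⟩
              s := fun j l => ⟨φ.s j l, hφ (Or.inr ⟨(j, l), rfl⟩)⟩ }, rfl⟩
  have hliftP : ∀ t, ∃ φ₀ : PP S₀, φ₀.map f = ν t := fun t =>
    hlift _ ((Set.subset_iUnion (fun t => (ν t).coeffs) t).trans
      (Set.subset_union_left.trans hA))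
  have hliftX : ∀ σ ∈ X, (∃ φ₀ : PP S₀, φ₀.map f = σ.1) ∧ ∃ φ₀ : PP S₀, φ₀.map f = σ.2 := by
    intro σ hσ
    have h1 := (Set.subset_biUnion_of_mem (u := fun σ : PP S × PP S => σ.1.coeffs ∪ σ.2.coeffs)
      hσ).trans (Set.subset_union_right.trans hA)
    exact ⟨hlift _ (Set.subset_union_left.trans h1), hlift _ (Set.subset_union_right.trans h1)⟩
  let X₀ : Set (PP S₀ × PP S₀) := {τ | (τ.1.map f, τ.2.map f) ∈ X}
  have hX₀ : mapX f X₀ = X := by
    ext σ
    constructor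
    · rintro ⟨τ, hτ, rfl⟩
      exact hτ
    · intro hσ
      obtain ⟨⟨a, ha⟩, ⟨b, hb⟩⟩ := hliftX σ hσ
      have h1 : (a.map f, b.map f) = σ := by rw [ha, hb]
      exact ⟨(a, b), by change (a.map f, b.map f) ∈ X; rw [h1]; exact hσ, h1⟩
  have hle : ∀ φ ψ : PP S₀, Le X (φ.map f) (ψ.map f) ↔ Le X₀ φ ψ := by
    intro φ ψ
    have := le_mapX_iff f e hef X₀ φ ψ
    rwa [hX₀] at this
  have hinf : ∀ φ ψ χ : PP S₀, InfLe X (φ.map f) (ψ.map f) (χ.map f) ↔ InfLe X₀ φ ψ χ := by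
    intro φ ψ χ
    have := infLe_mapX_iff f e hef X₀ φ ψ χ
    rwa [hX₀] at this
  choose ν₀ hν₀ using hliftP
  have hgood : Good1 J X₀ ν₀ a₀ b₀ := by
    refine ⟨fun x y hx hxy hy => ?_, fun x y hx hxy hy => ?_,
      fun t₁ t₂ w h1 h2 h3 h4 h5 h6 hJ => ?_⟩
    · rw [← hle, hν₀, hν₀]
      exact hν.mono x y hx hxy hy
    · rw [← hle, hν₀, hν₀]
      exact hν.strict x y hx hxy hy
    · rw [← hinf, hν₀, hν₀, hν₀]
      exact hν.join t₁ t₂ w h1 h2 h3 h4 h5 h6 hJ
  have hmain := main_tensor hC₀ X₀ hT hab ν₀ hgood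
  have htr := transport_mem e _ hmain
  have hmm : mapX e (mapX (fun s => (1 : C) ⊗ₜ[C₀] s) X₀) = X := by
    rw [← hX₀]
    unfold mapX
    rw [Set.image_image]
    have h1 : ∀ φ : PP S₀, (φ.map (fun s => (1 : C) ⊗ₜ[C₀] s)).map e = φ.map f := by
      intro φ
      have h2 : (fun j => e ((1 : C) ⊗ₜ[C₀] φ.r j)) = fun j => f (φ.r j) :=
        funext fun j => hef _
      have h3 : (fun j l => e ((1 : C) ⊗ₜ[C₀] φ.s j l)) = fun j l => f (φ.s j l) :=
        funext fun j => funext fun l => hef _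
      unfold PP.map
      simp only [h2, h3]
    refine Set.image_congr fun τ _ => ?_
    rw [h1, h1]
  rw [hmm] at htr
  exact htr

theorem final {C S : Type u} [CommRing C] [IsNoetherianRing C] [Ring S] [Algebra C S]
    (hS : ∃ A : Set S, A.Countable ∧ Algebra.adjoin C A = ⊤)
    (X : Set (Σ m : ℕ, PPN S m × PPN S m)) (hX : X.Countable)
    (hw : ∃ (n : ℕ) (P : Set (PPN S n)), Cat.IsWide X P) :
    ∃ (N : Type u) (_ : AddCommGroup N) (_ : Module S N),
      Cat.Mem X N ∧ PureInjective S N ∧ Superdecomposable S N := by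
  obtain ⟨n, P, hP⟩ := hw
  obtain ⟨Y, hY, h⟩ := exists_one_var X hX
  obtain ⟨N, _, _, h1, h2, h3⟩ := noetherian_base (C := C) hS Y hY n ⟨P, isWideN_of h hP⟩
  exact ⟨N, inferInstance, inferInstance, (h N).1 h1, h2, h3⟩

end Pool.Agent.Helper56.NB
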