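import Pool.Agent.Helper56.NB.Defs

open scoped TensorProduct

namespace Pool.Agent.Helper56.NB

open Pool.Agent.H35SD Pool.Agent.Helper56.SDD

universe u v

theorem GoodSub.pure {C : Type u} [CommRing C] {C₀ : Subring C} (h : GoodSub C₀)
    (m n : ℕ) (a : Fin m → Fin n → C₀) (b : Fin m → C₀)
    (hx : ∃ x : Fin n → C, ∀ i, ∑ j, (a i j : C) * x j = b i) :
    ∃ z : Fin n → C₀, ∀ i, ∑ j, a i j * z j = b i := by
  classical
  obtain ⟨x, hx⟩ := hx
  let t : Fin m → MvPolynomial (Fin n) C₀ := fun i =>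
    ∑ j, MvPolynomial.C (a i j) * MvPolynomial.X j - MvPolynomial.C (b i)
  have ht : ∀ {B : Type u} [CommRing B] [Algebra C₀ B] (y : Fin n → B) (i : Fin m),
      MvPolynomial.aeval y (t i) = ∑ j, algebraMap C₀ B (a i j) * y j - algebraMap C₀ B (b i) := by
    intro B _ _ y i
    simp [t]
  obtain ⟨z, hz, -⟩ := h.sol n (Finset.univ.image t) ∅ ∅ x (by
    intro p hp
    obtain ⟨i, -, rfl⟩ := Finset.mem_image.1 hp
    rw [ht]
    have h1 : ∑ j, algebraMap C₀ C (a i j) * x j - algebraMap C₀ C (b i) = 0 :=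
      sub_eq_zero.2 (hx i)
    rw [h1]
    exact Submodule.zero_mem _) (by simp)
  refine ⟨z, fun i => ?_⟩
  have h1 := hz (t i) (Finset.mem_image_of_mem t (Finset.mem_univ i))
  rw [Finset.coe_empty, Ideal.span_empty, Ideal.map_bot, Ideal.mem_bot] at h1
  have h2 : MvPolynomial.aeval z (t i) = 0 := Subtype.ext h1
  rw [ht] at h2
  exact sub_eq_zero.1 h2

theorem GoodSub.mem_of_mem_map {C : Type u} [CommRing C] [IsNoetherianRing C] {C₀ : Subring C}
    (h : GoodSub C₀) (I : Ideal C₀) (c : C₀) (hc : algebraMap C₀ C c ∈ I.map (algebraMap C₀ C)) :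
    c ∈ I := by
  classical
  rw [Ideal.map] at hc
  obtain ⟨n, x, y, hy⟩ := (Submodule.mem_span_set' (R := C)).1 hc
  choose w hw hw' using fun i => (y i).2
  obtain ⟨z, hz⟩ := h.pure 1 n (fun _ i => w i) (fun _ => c) ⟨x, fun _ => by
    rw [← show algebraMap C₀ C c = c from rfl, ← hy]
    refine Finset.sum_congr rfl fun i _ => ?_
    rw [smul_eq_mul, mul_comm, ← hw']
    rfl⟩
  rw [← hz 0]
  exact I.sum_mem fun i _ => I.mul_mem_right _ (hw i)

theorem GoodSub.noeth {C : Type u} [CommRing C] [IsNoetherianRing C] {C₀ : Subring C}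
    (h : GoodSub C₀) : IsNoetherianRing C₀ := by
  classical
  rw [isNoetherianRing_iff_ideal_fg]
  intro I
  have h1 : (I.map (algebraMap C₀ C)).FG := (isNoetherianRing_iff_ideal_fg C).1 inferInstance _
  rw [Ideal.map] at h1
  obtain ⟨s, hs, hs'⟩ := (Submodule.fg_span_iff_fg_span_finset_subset _).1 h1
  have hs2 : ∀ x : C, x ∈ s → ∃ c ∈ I, algebraMap C₀ C c = x := fun x hx => hs hx
  choose! g hg hg' using hs2
  refine ⟨s.image g, le_antisymm ?_ fun c hc => ?_⟩
  · rw [Finset.coe_image]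
    refine Ideal.span_le.2 ?_
    rintro _ ⟨x, hx, rfl⟩
    exact hg x hx
  · apply h.mem_of_mem_map
    have h2 : algebraMap C₀ C c ∈ Submodule.span C (algebraMap C₀ C '' I) :=
      Submodule.subset_span ⟨c, hc, rfl⟩
    rw [hs'] at h2
    refine (Submodule.span_le.2 ?_ : Submodule.span C (s : Set C) ≤ _) h2
    intro x hx
    have h3 : g x ∈ Ideal.span ((s.image g : Finset C₀) : Set C₀) :=
      Ideal.subset_span (Finset.mem_coe.2 (Finset.mem_image_of_mem g hx))
    have h4 := Ideal.mem_map_of_mem (algebraMap C₀ C) h3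
    rwa [hg' x hx] at h4

theorem GoodSub.faithfullyFlat {C : Type u} [CommRing C] [IsNoetherianRing C] {C₀ : Subring C}
    (h : GoodSub C₀) : Module.FaithfullyFlat C₀ C := by
  have hflat : Module.Flat C₀ C := by
    rw [Module.Flat.iff_forall_isTrivialRelation]
    intro l f x hfx
    obtain ⟨k, y, c, hy, hc⟩ := h.ker l f x hfx
    refine ⟨k, fun j i => y i j, c, fun j => ?_, fun i => ?_⟩
    · rw [hc j]
      refine Finset.sum_congr rfl fun i _ => ?_
      rw [mul_comm]
      rfl
    · rw [← hy i]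
  refine ⟨fun {m} hm hcon => ?_⟩
  have h1 : (1 : C) ∈ (m • ⊤ : Submodule C₀ C) := by rw [hcon]; trivial
  have h2 : algebraMap C₀ C 1 ∈ m.map (algebraMap C₀ C) := by
    rw [map_one]
    have h3 : (m • ⊤ : Submodule C₀ C) = (m.map (algebraMap C₀ C)).restrictScalars C₀ :=
      Ideal.smul_top_eq_map m
    rw [h3] at h1
    exact h1
  exact hm.ne_top ((Ideal.eq_top_iff_one m).2 (h.mem_of_mem_map m 1 h2))

theorem GoodSub.prime {C : Type u} [CommRing C] [IsNoetherianRing C] {C₀ : Subring C}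
    (h : GoodSub C₀) (p : Ideal C₀) (hp : p.IsPrime) : (p.map (algebraMap C₀ C)).IsPrime := by
  classical
  obtain ⟨B, hB⟩ := (isNoetherianRing_iff_ideal_fg C₀).1 h.noeth p
  constructor
  · intro hcon
    have h2 : algebraMap C₀ C 1 ∈ p.map (algebraMap C₀ C) := by
      rw [hcon]; trivial
    exact hp.ne_top ((Ideal.eq_top_iff_one p).2 (h.mem_of_mem_map p 1 h2))
  · intro x y hxy
    by_contra hcon
    push Not at hcon
    rw [← hB] at hxy hcon
    obtain ⟨z, hz, hz'⟩ := h.sol 2 {MvPolynomial.X 0 * MvPolynomial.X 1}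
      {MvPolynomial.X 0, MvPolynomial.X 1} B ![x, y] (by
        intro t ht
        rw [Finset.mem_singleton] at ht
        subst ht
        simpa using hxy) (by
        intro g hg
        rw [Finset.mem_insert, Finset.mem_singleton] at hg
        rcases hg with rfl | rfl
        · simpa using hcon.1
        · simpa using hcon.2)
    have h1 := hz _ (Finset.mem_singleton_self _)
    have h2 := hz' (MvPolynomial.X 0) (by simp)
    have h3 := hz' (MvPolynomial.X 1) (by simp)
    rw [map_mul, MvPolynomial.aeval_X, MvPolynomial.aeval_X] at h1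
    rw [MvPolynomial.aeval_X] at h2 h3
    have h4 := h.mem_of_mem_map _ _ h1
    rw [hB] at h4 
    rcases hp.mem_or_mem h4 with h5 | h5
    · rw [← hB] at h5
      exact h2 (Ideal.mem_map_of_mem _ h5)
    · rw [← hB] at h5
      exact h3 (Ideal.mem_map_of_mem _ h5)

end Pool.Agent.Helper56.NB
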